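import Mathlib

set_option autoImplicit false

namespace Pool.Agent.Results.MP_a62e4d_an.No

open Finset

/-- `evol A k d = A (k + d - 1) ∘ ⋯ ∘ A k`, so that `A_m^k = evol A k (m - k)`. -/
def evol {X : Type*} [NormedAddCommGroup X] [NormedSpace ℝ X] (A : ℕ → X →L[ℝ] X) (k : ℕ) :
    ℕ → X →L[ℝ] X
  | 0 => ContinuousLinearMap.id ℝ X
  | d + 1 => (A (k + d)).comp (evol A k d)

noncomputable def ev (n : ℕ) : lp (fun _ : ℕ => ℝ) 1 →L[ℝ] ℝ :=
  LinearMap.mkContinuous ⟨⟨fun x => x n, fun _ _ => rfl⟩, fun _ _ => rfl⟩ 1 fun x => by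
    rw [one_mul]; exact lp.norm_apply_le_norm one_ne_zero x n

noncomputable def B (n : ℕ) : lp (fun _ : ℕ => ℝ) 1 →L[ℝ] lp (fun _ : ℕ => ℝ) 1 :=
  (ev n).smulRight (lp.single 1 (n + 1) 1)

lemma ns (n : ℕ) : ‖(lp.single 1 n 1 : lp (fun _ : ℕ => ℝ) 1)‖ = 1 := by
  rw [lp.norm_single (by norm_num), norm_one]

lemma evB (k : ℕ) (x : lp (fun _ : ℕ => ℝ) 1) :
    ∀ d, evol B k (d + 1) x = x k • lp.single 1 (k + d + 1) 1
  | 0 => rfl
  | d + 1 => by
    change B (k + (d + 1)) (evol B k (d + 1) x) = _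
    rw [evB k x d, map_smul]
    congr 1
    have e : ev (k + (d + 1)) (lp.single 1 (k + d + 1) 1) = 1 :=
      lp.single_apply_self (E := fun _ : ℕ => ℝ) 1 (k + d + 1) 1
    rw [B, ContinuousLinearMap.smulRight_apply, e, one_smul]

/-- Condition (iii). -/
def CondIII {X : Type} [NormedAddCommGroup X] [NormedSpace ℝ X] (A : ℕ → X →L[ℝ] X) : Prop :=
  ∃ B : ℝ, 1 ≤ B ∧ ∀ m x, ∑ k ∈ range (m + 1), ‖evol A k (m - k) x‖ ≤ B * ‖x‖

/-- Uniform exponential stability. -/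
def UES {X : Type} [NormedAddCommGroup X] [NormedSpace ℝ X] (A : ℕ → X →L[ℝ] X) : Prop :=
  ∃ N ν : ℝ, 1 ≤ N ∧ 0 < ν ∧ ∀ k m : ℕ, k ≤ m → ∀ x,
    ‖evol A k (m - k) x‖ ≤ N * Real.exp (-ν * ((m : ℝ) - k)) * ‖x‖

theorem result : ∃ (X : Type) (_ : NormedAddCommGroup X) (_ : NormedSpace ℝ X)
    (_ : CompleteSpace X) (A : ℕ → X →L[ℝ] X), CondIII A ∧ ¬ UES A := by
  refine ⟨lp (fun _ : ℕ => ℝ) 1, inferInstance, inferInstance, inferInstance, B,
    ⟨2, one_le_two, fun m x => ?_⟩, ?_⟩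
  · have h := lp.sum_rpow_le_norm_rpow (p := 1) (by norm_num) x (range m)
    simp only [ENNReal.toReal_one, Real.rpow_one] at h
    rw [sum_range_succ, Nat.sub_self, two_mul]
    refine add_le_add (le_trans (sum_le_sum fun k hk => ?_) h) le_rfl
    obtain ⟨d, hd⟩ : ∃ d, m - k = d + 1 := ⟨m - k - 1, by have := mem_range.1 hk; omega⟩
    rw [hd, evB, norm_smul, ns, mul_one]
  · rintro ⟨N, ν, h1, h2, h⟩
    obtain ⟨d, hd⟩ := exists_nat_gt (N / ν)
    have := h 0 (d + 1) (by omega) (lp.single 1 0 1)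
    rw [Nat.sub_zero, evB, norm_smul, ns, ns, lp.single_apply_self, norm_one, mul_one, mul_one,
      neg_mul, Real.exp_neg, ← div_eq_mul_inv, one_le_div (Real.exp_pos _)] at this
    have e := Real.add_one_le_exp (ν * (((d + 1 : ℕ) : ℝ) - (0 : ℕ)))
    rw [div_lt_iff₀ h2] at hd
    have := e.trans this
    push_cast at this
    nlinarith

end Pool.Agent.Results.MP_a62e4d_an.No
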